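import Pool.Agent.Q178.HG.Def5cc
import Pool.Agent.Q178.HG.Def5c

/-! Symmetric polynomial hypergroups with `0` in the dual space and `h(2)` close to one. -/

namespace Pool.Agent.Results.MP_5cc272_an.ZeroInDual

open Pool.Agent.Q178.HG Pool.Agent.Q178.HG.Def5cc

theorem result (δ : ℝ) (hδ : 0 < δ) :
    ∃ c : ℕ → ℝ, Induces c ∧ (0 : ℝ) ∈ dual c ∧ haar c 2 < 1 + δ := by
  obtain ⟨s, hs, h⟩ := Def5c.small hδ
  exact ⟨_, ind3 hs, zero_mem_dual hs, by rw [haar3 hs]; exact h⟩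

end Pool.Agent.Results.MP_5cc272_an.ZeroInDual
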